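import Mathlib

/-!
# Katetov numbers of intersections and disjoint sums of ideals
-/

set_option autoImplicit false

namespace Pool.Agent.V1140.KI

open Set

/-- `J` is an ideal on `α` (proper and containing all finite sets). -/
structure IsIdeal {α : Type} (J : Set (Set α)) : Prop where
  fin : ∀ s : Set α, s.Finite → s ∈ J
  sub : ∀ s t, s ⊆ t → t ∈ J → s ∈ J
  union : ∀ s t, s ∈ J → t ∈ J → s ∪ t ∈ J
  proper : univ ∉ J

/-- The Katetov order: `f⁻¹[a] ∈ J` for all `a ∈ A`, for some `f`. -/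
def KLe {α β : Type} (A : Set (Set α)) (J : Set (Set β)) : Prop :=
  ∃ f : β → α, ∀ a ∈ A, f ⁻¹' a ∈ J

/-- The disjoint sum `J₀ ⊕ J₁`, an ideal on `{0,1} × ω`. -/
def dsum (J₀ J₁ : Set (Set ℕ)) : Set (Set (Bool × ℕ)) :=
  {X | {n | (false, n) ∈ X} ∈ J₀ ∧ {n | (true, n) ∈ X} ∈ J₁}

/-- `A` generates an ideal: no finite union of members of `A` is cofinite. -/
def GenIdeal (A : Set (Set ℕ)) : Prop :=
  ∀ F : Finset (Set ℕ), (∀ a ∈ F, a ∈ A) → ((⋃ a ∈ F, a)ᶜ).Infinite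

/-- `𝔭_K(I, J)`, with value `⊤` if there is no witness. -/
noncomputable def pK {β : Type} (I : Set (Set ℕ)) (J : Set (Set β)) : WithTop Cardinal.{0} :=
  sInf {c | ∃ A : Set (Set ℕ), A ⊆ I ∧ c = ((Cardinal.mk A : Cardinal.{0}) : WithTop Cardinal.{0}) ∧
    ¬ KLe A J}

/-- `𝔭_K(⋆, J)`. -/
noncomputable def pKstar {β : Type} (J : Set (Set β)) : WithTop Cardinal.{0} :=
  sInf {c | ∃ A : Set (Set ℕ), GenIdeal A ∧ c = ((Cardinal.mk A : Cardinal.{0}) : WithTop Cardinal.{0}) ∧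
    ¬ KLe A J}

/-- `K × ω`, moved to `ω`. -/
def rowI (K : Set (Set ℕ)) : Set (Set ℕ) := {X | ∃ a ∈ K, ∀ n ∈ X, (Nat.unpair n).1 ∈ a}

/-- `ω × K`, moved to `ω`. -/
def colI (K : Set (Set ℕ)) : Set (Set ℕ) := {X | ∃ a ∈ K, ∀ n ∈ X, (Nat.unpair n).2 ∈ a}

theorem rowI_ideal {K : Set (Set ℕ)} (hK : IsIdeal K) : IsIdeal (rowI K) where
  fin s hs := ⟨(fun n => (Nat.unpair n).1) '' s, hK.fin _ (hs.image _), fun n hn => ⟨n, hn, rfl⟩⟩
  sub s t hst := by
    rintro ⟨a, ha, h⟩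
    exact ⟨a, ha, fun n hn => h n (hst hn)⟩
  union s t := by
    rintro ⟨a, ha, h⟩ ⟨b, hb, h'⟩
    refine ⟨a ∪ b, hK.union _ _ ha hb, ?_⟩
    rintro n (hn | hn)
    · exact Or.inl (h n hn)
    · exact Or.inr (h' n hn)
  proper := by
    rintro ⟨a, ha, h⟩
    apply hK.proper
    have : a = univ := by
      refine eq_univ_of_forall fun i => ?_
      have := h (Nat.pair i 0) (mem_univ _)
      rwa [Nat.unpair_pair] at this
    rwa [this] at ha

theorem colI_ideal {K : Set (Set ℕ)} (hK : IsIdeal K) : IsIdeal (colI K) where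
  fin s hs := ⟨(fun n => (Nat.unpair n).2) '' s, hK.fin _ (hs.image _), fun n hn => ⟨n, hn, rfl⟩⟩
  sub s t hst := by
    rintro ⟨a, ha, h⟩
    exact ⟨a, ha, fun n hn => h n (hst hn)⟩
  union s t := by
    rintro ⟨a, ha, h⟩ ⟨b, hb, h'⟩
    refine ⟨a ∪ b, hK.union _ _ ha hb, ?_⟩
    rintro n (hn | hn)
    · exact Or.inl (h n hn)
    · exact Or.inr (h' n hn)
  proper := by
    rintro ⟨a, ha, h⟩
    apply hK.proper
    have : a = univ := by
      refine eq_univ_of_forall fun i => ?_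
      have := h (Nat.pair 0 i) (mem_univ _)
      rwa [Nat.unpair_pair] at this
    rwa [this] at ha

theorem dsum_ideal {J₀ J₁ : Set (Set ℕ)} (h0 : IsIdeal J₀) (h1 : IsIdeal J₁) :
    IsIdeal (dsum J₀ J₁) where
  fin s hs := ⟨h0.fin _ (hs.preimage (by
      intro a _ b _ h; simpa using h)), h1.fin _ (hs.preimage (by
      intro a _ b _ h; simpa using h))⟩
  sub s t hst := fun h => ⟨h0.sub _ _ (fun n hn => hst hn) h.1, h1.sub _ _ (fun n hn => hst hn) h.2⟩
  union s t := fun h h' => ⟨h0.union _ _ h.1 h'.1, h1.union _ _ h.2 h'.2⟩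
  proper := fun h => h0.proper h.1

theorem inter_ideal {J₀ J₁ : Set (Set ℕ)} (h0 : IsIdeal J₀) (h1 : IsIdeal J₁) :
    IsIdeal (J₀ ∩ J₁) where
  fin s hs := ⟨h0.fin _ hs, h1.fin _ hs⟩
  sub s t hst := fun h => ⟨h0.sub _ _ hst h.1, h1.sub _ _ hst h.2⟩
  union s t := fun h h' => ⟨h0.union _ _ h.1 h'.1, h1.union _ _ h.2 h'.2⟩
  proper := fun h => h0.proper h.1

theorem ncard_Iio (n : ℕ) : (Iio n : Set ℕ).ncard = n := by
  rw [← Finset.coe_Iio, ncard_coe_finset, Nat.card_Iio]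

theorem IsIdeal.biUnion {J : Set (Set ℕ)} (hJ : IsIdeal J) {ι : Type} {s : Set ι}
    (hs : s.Finite) (g : ι → Set ℕ) (hg : ∀ i ∈ s, g i ∈ J) : (⋃ i ∈ s, g i) ∈ J := by
  induction s, hs using Set.Finite.induction_on with
  | empty => simpa using hJ.fin ∅ finite_empty
  | @insert a s _ _ ih =>
    rw [biUnion_insert]
    exact hJ.union _ _ (hg a (mem_insert _ _)) (ih fun i hi => hg i (mem_insert_of_mem _ hi))

/-- A family which is Katetov below `K` is Katetov below `(K × ω) ⊕ (ω × K)`. -/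
theorem kle_dsum {K A : Set (Set ℕ)} (h : KLe A K) : KLe A (dsum (rowI K) (colI K)) := by
  obtain ⟨f, hf⟩ := h
  refine ⟨fun p => if p.1 then f (Nat.unpair p.2).2 else f (Nat.unpair p.2).1, fun a ha => ?_⟩
  refine ⟨⟨f ⁻¹' a, hf a ha, fun n hn => ?_⟩, ⟨f ⁻¹' a, hf a ha, fun n hn => ?_⟩⟩
  · simpa using hn
  · simpa using hn

/-- The main observation: a family hitting all sequences of infinite sets is not Katetov below
`(K × ω) ∩ (ω × K)`. -/
theorem not_kle_inter {K A : Set (Set ℕ)} (hK : IsIdeal K) (hsing : ∀ v, {v} ∈ A)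
    (hhit : ∀ V : ℕ → Set ℕ, (∀ i, (V i).Infinite) → ∃ a ∈ A, ∀ i, ∃ v ∈ V i, v ∈ a) :
    ¬ KLe A (rowI K ∩ colI K) := by
  rintro ⟨f, hf⟩
  have hinf : ∀ i, (range fun j => f (Nat.pair i j)).Infinite := by
    intro i hfin
    have h1 := (colI_ideal hK).biUnion hfin (fun v => f ⁻¹' {v}) (fun v _ => (hf _ (hsing v)).2)
    obtain ⟨b, hb, h2⟩ := h1
    apply hK.proper
    have : b = univ := by
      refine eq_univ_of_forall fun j => ?_
      have := h2 (Nat.pair i j) (mem_biUnion (mem_range_self j) rfl)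
      rwa [Nat.unpair_pair] at this
    rwa [this] at hb
  obtain ⟨a, ha, h1⟩ := hhit _ hinf
  obtain ⟨b, hb, h2⟩ := (hf a ha).1
  apply hK.proper
  have : b = univ := by
    refine eq_univ_of_forall fun i => ?_
    obtain ⟨v, ⟨j, rfl⟩, hv⟩ := h1 i
    have := h2 (Nat.pair i j) hv
    rwa [Nat.unpair_pair] at this
  rwa [this] at hb

/-- The ideal of the sets having at most `C (N + 1)` elements below `2 ^ N`. -/
def logI : Set (Set ℕ) := {a | ∃ C : ℕ, ∀ N, (a ∩ Iio (2 ^ N)).ncard ≤ C * (N + 1)}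

theorem logI_ideal : IsIdeal logI where
  fin s hs := ⟨s.ncard, fun N => by
    calc (s ∩ Iio (2 ^ N)).ncard ≤ s.ncard := ncard_le_ncard inter_subset_left hs
      _ ≤ s.ncard * (N + 1) := Nat.le_mul_of_pos_right _ (Nat.succ_pos _)⟩
  sub s t hst := by
    rintro ⟨C, h⟩
    exact ⟨C, fun N => (ncard_le_ncard (inter_subset_inter_left _ hst)
      ((finite_Iio _).inter_of_right _)).trans (h N)⟩
  union s t := by
    rintro ⟨C, h⟩ ⟨C', h'⟩
    refine ⟨C + C', fun N => ?_⟩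
    rw [union_inter_distrib_right]
    calc ((s ∩ Iio (2 ^ N)) ∪ (t ∩ Iio (2 ^ N))).ncard
        ≤ (s ∩ Iio (2 ^ N)).ncard + (t ∩ Iio (2 ^ N)).ncard := ncard_union_le _ _
      _ ≤ C * (N + 1) + C' * (N + 1) := add_le_add (h N) (h' N)
      _ = (C + C') * (N + 1) := by ring
  proper := by
    rintro ⟨C, h⟩
    have h1 := h (8 * C + 1)
    rw [univ_inter, ncard_Iio] at h1
    have h3 : 4 * C + 1 < 2 ^ (4 * C + 1) := Nat.lt_two_pow_self
    have h2 : (4 * C + 1) * (4 * C + 1) < 2 * 2 ^ (8 * C + 1) := by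
      calc (4 * C + 1) * (4 * C + 1) < 2 ^ (4 * C + 1) * 2 ^ (4 * C + 1) :=
            Nat.mul_lt_mul'' h3 h3
        _ = 2 * 2 ^ (8 * C + 1) := by rw [← pow_add, ← pow_succ']; congr 1; ring
    nlinarith

/-- The set `{2 ^ n + x n}`. -/
def aset (x : ℕ → ℕ) : Set ℕ := range fun n => 2 ^ n + x n

theorem aset_mem (x : ℕ → ℕ) : aset x ∈ logI := by
  refine ⟨1, fun N => ?_⟩
  have h1 : aset x ∩ Iio (2 ^ N) ⊆ ((Finset.range N).image fun n => 2 ^ n + x n : Finset ℕ) := by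
    rintro _ ⟨⟨n, rfl⟩, hn⟩
    rw [Finset.coe_image]
    refine ⟨n, ?_, rfl⟩
    rw [Finset.coe_range, mem_Iio]
    by_contra hcon
    push Not at hcon
    have h2 : 2 ^ N ≤ 2 ^ n := Nat.pow_le_pow_right (by norm_num) hcon
    have h3 : 2 ^ n + x n < 2 ^ N := hn
    omega
  calc (aset x ∩ Iio (2 ^ N)).ncard
      ≤ (((Finset.range N).image fun n => 2 ^ n + x n : Finset ℕ) : Set ℕ).ncard :=
        ncard_le_ncard h1 (Finset.finite_toSet _)
    _ = ((Finset.range N).image fun n => 2 ^ n + x n).card := ncard_coe_finset _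
    _ ≤ N := by simpa using Finset.card_image_le (s := Finset.range N) (f := fun n => 2 ^ n + x n)
    _ ≤ 1 * (N + 1) := by omega

end Pool.Agent.V1140.KI
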