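import Pool.Agent.V1140.KI.Basic

/-!
# An ideal Katetov above all small families
-/

set_option autoImplicit false

namespace Pool.Agent.V1140.KI

open Set

/-- The countable set of the guesses. -/
abbrev Om : Type := Σ n : ℕ, ((Fin n → Bool) → ℕ)

instance : Nonempty Om := ⟨⟨0, fun _ => 0⟩⟩

theorem exists_enum : ∃ e : ℕ → Om, Function.Surjective e := exists_surjective_nat Om

/-- An enumeration of the guesses. -/
noncomputable def enum : ℕ → Om := exists_enum.choose

theorem enum_surj : Function.Surjective enum := exists_enum.choose_spec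

/-- The independent functions `f_r : ω → ω`. -/
noncomputable def fr (r : ℕ → Bool) (k : ℕ) : ℕ := (enum k).2 fun i => r i

theorem indep (R : Finset (ℕ → Bool)) (v : (ℕ → Bool) → ℕ) :
    {k | ∀ r ∈ R, fr r k = v r}.Infinite := by
  classical
  -- a level where the members of `R` are distinct
  obtain ⟨n₀, hn₀⟩ : ∃ n₀ : ℕ, ∀ r ∈ R, ∀ r' ∈ R, (∀ i < n₀, r i = r' i) → r = r' := by
    have h1 : ∀ r r' : ℕ → Bool, ∃ m : ℕ, (∀ i < m, r i = r' i) → r = r' := by
      intro r r'
      by_cases h : r = r'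
      · exact ⟨0, fun _ => h⟩
      · obtain ⟨i, hi⟩ := Function.ne_iff.1 h
        exact ⟨i + 1, fun h' => absurd (h' i (Nat.lt_succ_self i)) hi⟩
    choose m hm using h1
    refine ⟨R.sup fun r => R.sup fun r' => m r r', fun r hr r' hr' h => hm r r' fun i hi => h i ?_⟩
    refine lt_of_lt_of_le hi ?_
    exact (Finset.le_sup (f := fun r' => m r r') hr').trans
      (Finset.le_sup (f := fun r => R.sup fun r' => m r r') hr)
  -- for every `n ≥ n₀` there is a guess at level `n`
  have h2 : ∀ n, n₀ ≤ n → ∃ k, (enum k).1 = n ∧ ∀ r ∈ R, fr r k = v r := by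
    intro n hn
    let φ : (Fin n → Bool) → ℕ := fun s =>
      if h : ∃ r ∈ R, (fun i : Fin n => r i) = s then v h.choose else 0
    obtain ⟨k, hk⟩ := enum_surj ⟨n, φ⟩
    refine ⟨k, by rw [hk], fun r hr => ?_⟩
    unfold fr
    rw [hk]
    show φ (fun i : Fin n => r i) = v r
    have h : ∃ r' ∈ R, (fun i : Fin n => r' i) = fun i : Fin n => r i := ⟨r, hr, rfl⟩
    show (if h : ∃ r' ∈ R, (fun i : Fin n => r' i) = (fun i : Fin n => r i) then v h.choose
      else 0) = v r
    rw [dif_pos h]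
    congr 1
    refine hn₀ _ h.choose_spec.1 r hr fun i hi => ?_
    exact congrFun h.choose_spec.2 ⟨i, lt_of_lt_of_le hi hn⟩
  intro hfin
  have h3 : (Ici n₀ : Set ℕ) ⊆ (fun k => (enum k).1) '' {k | ∀ r ∈ R, fr r k = v r} := by
    intro n hn
    obtain ⟨k, hk1, hk2⟩ := h2 n hn
    exact ⟨k, hk2, hk1⟩
  exact (Ici_infinite n₀) ((hfin.image _).subset h3)

/-- The ideal generated by the finite sets and the sets `f_r⁻¹[a]`, `a ∈ A r`. -/
def bigK (A : (ℕ → Bool) → Set (Set ℕ)) : Set (Set ℕ) :=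
  {X | ∃ F : Finset ((ℕ → Bool) × Set ℕ), (∀ p ∈ F, p.2 ∈ A p.1) ∧
    (X \ ⋃ p ∈ F, fr p.1 ⁻¹' p.2).Finite}

theorem bigK_ideal {A : (ℕ → Bool) → Set (Set ℕ)} (hA : ∀ r, GenIdeal (A r)) :
    IsIdeal (bigK A) where
  fin s hs := ⟨∅, by simp, hs.subset sdiff_subset⟩
  sub s t hst := by
    rintro ⟨F, hF, h⟩
    exact ⟨F, hF, h.subset (sdiff_subset_sdiff_left hst)⟩
  union s t := by
    classical
    rintro ⟨F, hF, h⟩ ⟨F', hF', h'⟩
    refine ⟨F ∪ F', ?_, (h.union h').subset ?_⟩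
    · intro p hp
      rcases Finset.mem_union.1 hp with hp | hp
      · exact hF p hp
      · exact hF' p hp
    · rintro x ⟨hx | hx, hn⟩
      · refine Or.inl ⟨hx, fun h1 => hn ?_⟩
        obtain ⟨p, hp, h2⟩ := mem_iUnion₂.1 h1
        exact mem_iUnion₂.2 ⟨p, Finset.mem_union_left _ hp, h2⟩
      · refine Or.inr ⟨hx, fun h1 => hn ?_⟩
        obtain ⟨p, hp, h2⟩ := mem_iUnion₂.1 h1
        exact mem_iUnion₂.2 ⟨p, Finset.mem_union_right _ hp, h2⟩
  proper := by
    classical
    rintro ⟨F, hF, h⟩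
    have h1 : ∀ r, ∃ v : ℕ, ∀ p ∈ F, p.1 = r → v ∉ p.2 := by
      intro r
      have h2 := hA r ((F.filter fun p => p.1 = r).image Prod.snd) (by
        intro a ha
        rw [Finset.mem_image] at ha
        obtain ⟨p, hp, rfl⟩ := ha
        rw [Finset.mem_filter] at hp
        rw [← hp.2]
        exact hF p hp.1)
      obtain ⟨v, hv⟩ := h2.nonempty
      refine ⟨v, fun p hp hpr hvp => hv ?_⟩
      refine mem_iUnion₂.2 ⟨p.2, ?_, hvp⟩
      exact Finset.mem_image.2 ⟨p, Finset.mem_filter.2 ⟨hp, hpr⟩, rfl⟩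
    choose v hv using h1
    refine (indep (F.image Prod.fst) v) (h.subset ?_)
    intro k hk
    refine ⟨mem_univ _, fun h3 => ?_⟩
    obtain ⟨p, hp, h4⟩ := mem_iUnion₂.1 h3
    have h5 : fr p.1 k = v p.1 := hk p.1 (Finset.mem_image.2 ⟨p, hp, rfl⟩)
    have h6 : fr p.1 k ∈ p.2 := h4
    rw [h5] at h6
    exact hv p.1 p hp rfl h6

theorem kle_bigK (A : (ℕ → Bool) → Set (Set ℕ)) (r : ℕ → Bool) : KLe (A r) (bigK A) := by
  refine ⟨fr r, fun a ha => ⟨{(r, a)}, ?_, ?_⟩⟩
  · intro p hp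
    rw [Finset.mem_singleton] at hp
    rw [hp]
    exact ha
  · simp

/-- If `𝔠 ^ κ = 𝔠`, there is an ideal which is Katetov above all families of size at most `κ`
that generate an ideal. -/
theorem exists_bigK {κ : Cardinal.{0}} (hκ : Cardinal.continuum ^ κ = Cardinal.continuum) :
    ∃ K : Set (Set ℕ), IsIdeal K ∧
      ∀ A : Set (Set ℕ), GenIdeal A → Cardinal.mk A ≤ κ → KLe A K := by
  classical
  have h1 : Cardinal.mk (κ.out → Set ℕ) = Cardinal.mk (ℕ → Bool) := by
    rw [← Cardinal.power_def, Cardinal.mk_set, Cardinal.mk_nat, Cardinal.two_power_aleph0,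
      Cardinal.mk_out, hκ, ← Cardinal.power_def, Cardinal.mk_bool, Cardinal.mk_nat,
      Cardinal.two_power_aleph0]
  obtain ⟨g⟩ := Cardinal.eq.1 h1
  have hempty : GenIdeal ∅ := by
    intro F hF
    have : F = ∅ := Finset.eq_empty_of_forall_notMem fun a ha => hF a ha
    rw [this]
    simpa using Set.infinite_univ (α := ℕ)
  let A : (ℕ → Bool) → Set (Set ℕ) := fun r =>
    if GenIdeal (range (g.symm r)) then range (g.symm r) else ∅
  have hA : ∀ r, GenIdeal (A r) := by
    intro r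
    show GenIdeal (if GenIdeal (range (g.symm r)) then range (g.symm r) else ∅)
    split_ifs with h
    · exact h
    · exact hempty
  refine ⟨bigK A, bigK_ideal hA, fun B hB hcard => ?_⟩
  rcases B.eq_empty_or_nonempty with hBe | ⟨b₀, hb₀⟩
  · subst hBe
    exact ⟨id, fun a ha => absurd ha (notMem_empty a)⟩
  · have h2 : Cardinal.mk B ≤ Cardinal.mk κ.out := by rwa [Cardinal.mk_out]
    obtain ⟨i⟩ := h2
    have : Nonempty B := ⟨⟨b₀, hb₀⟩⟩
    have h3 : ∃ s : κ.out → Set ℕ, range s = B := by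
      refine ⟨fun x => (Function.invFun i x : B), ?_⟩
      ext b
      constructor
      · rintro ⟨x, rfl⟩
        exact (Function.invFun i x : B).2
      · intro hb
        refine ⟨i ⟨b, hb⟩, ?_⟩
        show ((Function.invFun i (i ⟨b, hb⟩) : B) : Set ℕ) = b
        rw [Function.leftInverse_invFun i.injective]
    obtain ⟨s, hs⟩ := h3
    have h4 : A (g s) = B := by
      show (if GenIdeal (range (g.symm (g s))) then range (g.symm (g s)) else ∅) = B
      rw [Equiv.symm_apply_apply, hs, if_pos hB]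
    rw [← h4]
    exact kle_bigK A (g s)

/-- Non-meagre sets of functions yield families hitting all sequences of infinite sets. -/
theorem hit_of_nonmeagre {X : Set (ℕ → ℕ)} (hX : ¬ IsMeagre X) (V : ℕ → Set ℕ)
    (hV : ∀ i, (V i).Infinite) : ∃ x ∈ X, ∀ i, ∃ v ∈ V i, v ∈ aset x := by
  by_contra hcon
  push Not at hcon
  apply hX
  have h1 : ∀ i, {x : ℕ → ℕ | ∃ n, 2 ^ n + x n ∈ V i} ∈ residual (ℕ → ℕ) := by
    intro i
    refine residual_of_dense_open ?_ ?_
    · rw [Set.ofPred_exists]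
      refine isOpen_iUnion fun n => ?_
      have hc : Continuous (fun x : ℕ → ℕ => x n) := continuous_apply n
      exact hc.isOpen_preimage {k : ℕ | 2 ^ n + k ∈ V i} (isOpen_discrete _)
    · rw [dense_iff_inter_open]
      rintro U hU ⟨x₀, hx₀⟩
      obtain ⟨F, u, hu, hsub⟩ := isOpen_pi_iff.1 hU x₀ hx₀
      obtain ⟨n, hn⟩ := Infinite.exists_notMem_finset F
      obtain ⟨w, hw, hlt⟩ := (hV i).exists_gt (2 ^ n)
      refine ⟨Function.update x₀ n (w - 2 ^ n), hsub ?_, n, ?_⟩
      · intro j hj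
        have hjn : j ≠ n := fun h => hn (h ▸ hj)
        rw [Function.update_of_ne hjn]
        exact (hu j hj).2
      · rw [Function.update_self]
        have : 2 ^ n + (w - 2 ^ n) = w := by omega
        rw [this]
        exact hw
  have h2 : (⋂ i, {x : ℕ → ℕ | ∃ n, 2 ^ n + x n ∈ V i}) ∈ residual (ℕ → ℕ) :=
    (countable_iInter_mem).2 h1
  unfold IsMeagre
  refine Filter.mem_of_superset h2 ?_
  intro x hx hxX
  obtain ⟨i, hi⟩ := hcon x hxX
  obtain ⟨n, hn⟩ := mem_iInter.1 hx i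
  exact hi _ hn ⟨n, rfl⟩

end Pool.Agent.V1140.KI
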