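import Pool.Agent.V1140.KI.Indep

set_option autoImplicit false

namespace Pool.Agent.V1140.KI

open Set

theorem succ_le_of_lt {κ c : Cardinal.{0}} (h : κ < c) :
    ((Order.succ κ : Cardinal.{0}) : WithTop Cardinal.{0}) ≤ (c : WithTop Cardinal.{0}) :=
  WithTop.coe_le_coe.2 (Order.succ_le_of_lt h)

/-- Part (ii) fails in ZFC. -/
theorem part_ii : ∃ I J₀ J₁ : Set (Set ℕ), IsIdeal I ∧ IsIdeal J₀ ∧ IsIdeal J₁ ∧
    pK I (J₀ ∩ J₁) ≤ ((Cardinal.continuum : Cardinal.{0}) : WithTop Cardinal.{0}) ∧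
    pK I (dsum J₀ J₁) = ⊤ := by
  refine ⟨logI, rowI logI, colI logI, logI_ideal, rowI_ideal logI_ideal, colI_ideal logI_ideal,
    ?_, ?_⟩
  · have h1 : ¬ KLe logI (rowI logI ∩ colI logI) := by
      refine not_kle_inter logI_ideal (fun v => logI_ideal.fin _ (finite_singleton v)) ?_
      intro V hV
      have h2 : ∀ i, ∃ w ∈ V i, 2 ^ i < w := fun i => (hV i).exists_gt _
      choose w hw hlt using h2
      refine ⟨aset fun i => w i - 2 ^ i, aset_mem _, fun i => ⟨w i, hw i, i, ?_⟩⟩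
      have := hlt i
      show 2 ^ i + (w i - 2 ^ i) = w i
      omega
    have h3 : pK logI (rowI logI ∩ colI logI) ≤
        ((Cardinal.mk logI : Cardinal.{0}) : WithTop Cardinal.{0}) := by
      unfold pK
      exact sInf_le ⟨logI, Subset.rfl, rfl, h1⟩
    refine h3.trans (WithTop.coe_le_coe.2 ?_)
    calc Cardinal.mk logI ≤ Cardinal.mk (Set ℕ) := Cardinal.mk_set_le _
      _ = Cardinal.continuum := by
        rw [Cardinal.mk_set, Cardinal.mk_nat, Cardinal.two_power_aleph0]
  · unfold pK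
    have h1 : {c | ∃ A : Set (Set ℕ), A ⊆ logI ∧
        c = ((Cardinal.mk A : Cardinal.{0}) : WithTop Cardinal.{0}) ∧
        ¬ KLe A (dsum (rowI logI) (colI logI))} = ∅ := by
      rw [eq_empty_iff_forall_notMem]
      rintro c ⟨A, hA, -, h⟩
      exact h (kle_dsum ⟨id, fun a ha => hA ha⟩)
    rw [h1, sInf_empty]

/-- Part (iv) fails if `𝔠 ^ κ = 𝔠` for some `κ ≥ non(M)`. -/
theorem part_iv {κ : Cardinal.{0}} (hκ : Cardinal.continuum ^ κ = Cardinal.continuum)
    (hM : ∃ X : Set (ℕ → ℕ), ¬ IsMeagre X ∧ Cardinal.mk X ≤ κ) :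
    ∃ J₀ J₁ : Set (Set ℕ), IsIdeal J₀ ∧ IsIdeal J₁ ∧
      pKstar (J₀ ∩ J₁) ≤ (κ : WithTop Cardinal.{0}) ∧
      (κ : WithTop Cardinal.{0}) < pKstar (dsum J₀ J₁) := by
  obtain ⟨K, hK, hKA⟩ := exists_bigK hκ
  obtain ⟨X, hX, hXκ⟩ := hM
  have hXinf : Cardinal.aleph0 ≤ κ := by
    refine le_trans ?_ hXκ
    rw [Cardinal.aleph0_le_mk_iff]
    rw [← not_finite_iff_infinite]
    intro hfin
    apply hX
    have h1 : X.Finite := toFinite X
    have h2 : IsMeagre (⋃ x ∈ X, ({x} : Set (ℕ → ℕ))) := by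
      refine isMeagre_biUnion h1.countable fun x _ => ?_
      have : IsNowhereDense ({x} : Set (ℕ → ℕ)) := by
        unfold IsNowhereDense
        rw [closure_singleton]
        rw [Set.eq_empty_iff_forall_notMem]
        intro y hy
        obtain ⟨U, hU, hUo, hyU⟩ := mem_interior.1 hy
        obtain ⟨F, u, hu, hsub⟩ := isOpen_pi_iff.1 hUo y hyU
        obtain ⟨n, hn⟩ := Infinite.exists_notMem_finset F
        have h3 : Function.update y n (y n + 1) ∈ U := hsub fun j hj => by
          have hjn : j ≠ n := fun h => hn (h ▸ hj)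
          rw [Function.update_of_ne hjn]
          exact (hu j hj).2
        have h4 : Function.update y n (y n + 1) = x := hU h3
        have h5 : y = x := hU hyU
        have h6 := congrFun (h4.trans h5.symm) n
        rw [Function.update_self] at h6
        omega
      exact this.isMeagre
    have h3 : (⋃ x ∈ X, ({x} : Set (ℕ → ℕ))) = X := by simp
    rwa [h3] at h2
  refine ⟨rowI K, colI K, rowI_ideal hK, colI_ideal hK, ?_, ?_⟩
  · -- the small family
    set A : Set (Set ℕ) := aset '' X ∪ range (fun v : ℕ => ({v} : Set ℕ)) with hA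
    have hAlog : ∀ a ∈ A, a ∈ logI := by
      rintro a (⟨x, -, rfl⟩ | ⟨v, rfl⟩)
      · exact aset_mem x
      · exact logI_ideal.fin _ (finite_singleton v)
    have hgen : GenIdeal A := by
      intro F hF hfin
      have h1 : (⋃ a ∈ (F : Set (Set ℕ)), a) ∈ logI :=
        logI_ideal.biUnion F.finite_toSet id fun a ha => hAlog a (hF a ha)
      apply logI_ideal.proper
      have h2 : (⋃ a ∈ (F : Set (Set ℕ)), a) ∪ (⋃ a ∈ F, a)ᶜ = univ := by
        have : (⋃ a ∈ (F : Set (Set ℕ)), a) = ⋃ a ∈ F, a := by simp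
        rw [this, union_compl_self]
      rw [← h2]
      exact logI_ideal.union _ _ h1 (logI_ideal.fin _ hfin)
    have hnot : ¬ KLe A (rowI K ∩ colI K) := by
      refine not_kle_inter hK (fun v => Or.inr ⟨v, rfl⟩) ?_
      intro V hV
      obtain ⟨x, hx, h⟩ := hit_of_nonmeagre hX V hV
      exact ⟨aset x, Or.inl ⟨x, hx, rfl⟩, h⟩
    have h3 : pKstar (rowI K ∩ colI K) ≤
        ((Cardinal.mk A : Cardinal.{0}) : WithTop Cardinal.{0}) := by
      unfold pKstar
      exact sInf_le ⟨A, hgen, rfl, hnot⟩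
    refine h3.trans (WithTop.coe_le_coe.2 ?_)
    calc Cardinal.mk A ≤ Cardinal.mk (aset '' X) +
          Cardinal.mk (range (fun v : ℕ => ({v} : Set ℕ))) := Cardinal.mk_union_le _ _
      _ ≤ κ + Cardinal.aleph0 := by
        refine add_le_add (Cardinal.mk_image_le.trans hXκ) ?_
        rw [Cardinal.mk_range_eq _ singleton_injective, Cardinal.mk_nat]
      _ = κ := Cardinal.add_eq_left hXinf hXinf
  · have h1 : ((Order.succ κ : Cardinal.{0}) : WithTop Cardinal.{0}) ≤
        pKstar (dsum (rowI K) (colI K)) := by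
      refine le_sInf ?_
      rintro c ⟨A, hA, rfl, hnot⟩
      refine succ_le_of_lt ?_
      by_contra hle
      push Not at hle
      exact hnot (kle_dsum (hKA A hA hle))
    exact lt_of_lt_of_le (WithTop.coe_lt_coe.2 (Order.lt_succ κ)) h1

end Pool.Agent.V1140.KI
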